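import Mathlib

/-!
# Uniqueness of the second function when the product is a square (MP_99f05c_an, Q1)

If `(f, g₁)` and `(f, g₂)` are extremal pairs for `F(c)` and `g₁ g₂ = h²` for an analytic `h` (for instance if
`g₁` and `g₂` have the same zeros), then `|g₁| = |g₂|` in the disk. Otherwise `∥h∥ < 1` by
`|h|² = |g₁| |g₂|`, and `(f, h / ∥h∥)` has a smaller quotient.
-/

set_option autoImplicit false

open MeasureTheory Set Metric

namespace Pool.Agent.Results.MP_99f05c_an.EvenZeros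

/-- The square of the norm of the Bergman space. -/
noncomputable def sq (f : ℂ → ℂ) : ℝ := (1 / Real.pi) * ∫ z in ball (0 : ℂ) 1, ‖f z‖ ^ 2

/-- The unit sphere of the Bergman space. -/
def Sph : Set (ℂ → ℂ) :=
  {f | DifferentiableOn ℂ f (ball 0 1) ∧ IntegrableOn (fun z => ‖f z‖ ^ 2) (ball (0 : ℂ) 1) ∧ sq f = 1}

/-- `|f / g| ≤ M` for `c ≤ |z| < 1`. -/
def Bd (c : ℝ) (f g : ℂ → ℂ) (M : ℝ) : Prop :=
  0 ≤ M ∧ ∀ z : ℂ, c ≤ ‖z‖ → ‖z‖ < 1 → ‖f z‖ ≤ M * ‖g z‖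

/-- `F(c)`. -/
noncomputable def F (c : ℝ) : ℝ := sInf {M : ℝ | ∃ f ∈ Sph, ∃ g ∈ Sph, Bd c f g M}

/-- Extremal pairs. -/
def Extremal (c : ℝ) (f g : ℂ → ℂ) : Prop := f ∈ Sph ∧ g ∈ Sph ∧ Bd c f g (F c)

lemma zero_of_int {φ : ℂ → ℝ} (hc : ContinuousOn φ (ball (0 : ℂ) 1)) (h0 : ∀ z, 0 ≤ φ z)
    (hi : IntegrableOn φ (ball (0 : ℂ) 1)) (h : ∫ z in ball (0 : ℂ) 1, φ z = 0) :
    EqOn φ (fun _ => 0) (ball (0 : ℂ) 1) := by
  have h1 := (integral_eq_zero_iff_of_nonneg (fun z => h0 z) hi).1 h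
  exact Measure.eqOn_open_of_ae_eq h1 isOpen_ball hc continuousOn_const

lemma not_zero {c : ℝ} (hc0 : 0 < c) (hc1 : c < 1) {f : ℂ → ℂ} (hf : f ∈ Sph)
    (h : ∀ z : ℂ, c ≤ ‖z‖ → ‖z‖ < 1 → f z = 0) : False := by
  have hz : ((((c + 1) / 2 : ℝ) : ℂ)) ∈ ball (0 : ℂ) 1 := by
    rw [mem_ball_zero_iff, Complex.norm_real, Real.norm_of_nonneg (by linarith)]; linarith
  have hz2 : c < ‖((((c + 1) / 2 : ℝ) : ℂ))‖ := by
    rw [Complex.norm_real, Real.norm_of_nonneg (by linarith)]; linarith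
  have h1 : EqOn f 0 (ball 0 1) := by
    refine (hf.1.analyticOnNhd isOpen_ball).eqOn_zero_of_preconnected_of_eventuallyEq_zero
      (convex_ball 0 1).isPreconnected hz ?_
    filter_upwards [isOpen_ball.mem_nhds hz, (isOpen_lt continuous_const continuous_norm).mem_nhds hz2]
      with w hw hw2
    exact h w (le_of_lt hw2) (mem_ball_zero_iff.1 hw)
  have h2 := hf.2.2
  have h3 : ∫ z in ball (0 : ℂ) 1, ‖f z‖ ^ 2 = 0 := by
    rw [setIntegral_congr_fun (g := fun _ => (0 : ℝ)) measurableSet_ball]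
    · simp
    · intro z hz
      simp [h1 hz]
  rw [sq, h3] at h2
  simp at h2

/-- Two second functions of extremal pairs with the same first function, whose product is a square, have
the same modulus. -/
theorem result (c : ℝ) (hc0 : 0 < c) (hc1 : c < 1) (f g₁ g₂ h : ℂ → ℂ) (h₁ : Extremal c f g₁)
    (h₂ : Extremal c f g₂) (hh : DifferentiableOn ℂ h (ball 0 1))
    (hs : ∀ z ∈ ball (0 : ℂ) 1, h z ^ 2 = g₁ z * g₂ z) :
    ∀ z ∈ ball (0 : ℂ) 1, ‖g₁ z‖ = ‖g₂ z‖ := by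
  have hpi := Real.pi_pos
  obtain ⟨hf, hg1, hb1⟩ := h₁
  obtain ⟨-, hg2, hb2⟩ := h₂
  have hn : ∀ z ∈ ball (0 : ℂ) 1, ‖h z‖ ^ 2 = ‖g₁ z‖ * ‖g₂ z‖ := by
    intro z hz
    rw [← norm_pow, hs z hz, norm_mul]
  have hc : ContinuousOn (fun z => ‖h z‖ ^ 2) (ball (0 : ℂ) 1) := (hh.continuousOn.norm).pow 2
  have hi : IntegrableOn (fun z => ‖h z‖ ^ 2) (ball (0 : ℂ) 1) := by
    refine Integrable.mono' (hg1.2.1.add hg2.2.1) (hc.aestronglyMeasurable measurableSet_ball) ?_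
    refine (ae_restrict_iff' measurableSet_ball).2 (Filter.Eventually.of_forall fun z hz => ?_)
    rw [Real.norm_of_nonneg (by positivity), hn z hz]
    simp only [Pi.add_apply]
    nlinarith [sq_nonneg (‖g₁ z‖ - ‖g₂ z‖), norm_nonneg (g₁ z), norm_nonneg (g₂ z)]
  have hbd : ∀ z : ℂ, c ≤ ‖z‖ → ‖z‖ < 1 → ‖f z‖ ≤ F c * ‖h z‖ := by
    intro z hz hz1
    have e := hn z (mem_ball_zero_iff.2 hz1)
    have e1 := hb1.2 z hz hz1
    have e2 := hb2.2 z hz hz1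
    have e3 : ‖f z‖ ^ 2 ≤ (F c * ‖h z‖) ^ 2 := by
      rw [mul_pow, e]
      have := mul_le_mul e1 e2 (norm_nonneg _) ((norm_nonneg _).trans e1)
      nlinarith
    exact le_of_sq_le_sq e3 (mul_nonneg hb1.1 (norm_nonneg _))
  have hsq0 : 0 ≤ sq h := mul_nonneg (by positivity) (integral_nonneg fun z => by positivity)
  have hpos : 0 < sq h := by
    rcases hsq0.lt_or_eq with h1 | h1
    · exact h1
    · exfalso
      have h2 : ∫ z in ball (0 : ℂ) 1, ‖h z‖ ^ 2 = 0 := by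
        have : (1 / Real.pi) * ∫ z in ball (0 : ℂ) 1, ‖h z‖ ^ 2 = 0 := h1.symm
        rcases mul_eq_zero.1 this with h3 | h3
        · exact absurd h3 (by positivity)
        · exact h3
      have h3 := zero_of_int hc (fun z => by positivity) hi h2
      refine not_zero hc0 hc1 hf fun z hz hz1 => ?_
      have h4 : ‖h z‖ ^ 2 = 0 := h3 (mem_ball_zero_iff.2 hz1)
      have h5 := hbd z hz hz1
      rw [pow_eq_zero_iff two_ne_zero] at h4
      rw [h4, mul_zero] at h5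
      exact norm_le_zero_iff.1 h5
  have hF : 0 < F c := by
    rcases hb1.1.lt_or_eq with h1 | h1
    · exact h1
    · exfalso
      refine not_zero hc0 hc1 hf fun z hz hz1 => ?_
      have h5 := hbd z hz hz1
      rw [← h1, zero_mul] at h5
      exact norm_le_zero_iff.1 h5
  obtain ⟨N, hN⟩ : ∃ N : ℝ, N = Real.sqrt (sq h) := ⟨_, rfl⟩
  have hN0 : 0 < N := by rw [hN]; exact Real.sqrt_pos.2 hpos
  have hN2 : N ^ 2 = sq h := by rw [hN]; exact Real.sq_sqrt hsq0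
  have hk : (fun z => h z / (N : ℂ)) ∈ Sph := by
    have e : ∀ z, ‖h z / (N : ℂ)‖ ^ 2 = (N ^ 2)⁻¹ * ‖h z‖ ^ 2 := by
      intro z
      rw [norm_div, Complex.norm_real, Real.norm_of_nonneg hN0.le, div_pow]
      field_simp
    refine ⟨hh.div_const _, ?_, ?_⟩
    · simp only [e]
      exact hi.const_mul _
    · rw [sq]
      simp only [e]
      rw [integral_const_mul]
      have : (1 / Real.pi) * ((N ^ 2)⁻¹ * ∫ z in ball (0 : ℂ) 1, ‖h z‖ ^ 2) = (N ^ 2)⁻¹ * sq h := by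
        rw [sq]; ring
      rw [this, hN2, inv_mul_cancel₀ hpos.ne']
  have hle : F c ≤ F c * N := by
    refine csInf_le ⟨0, fun M hM => ?_⟩ ⟨f, hf, _, hk, ?_⟩
    · obtain ⟨_, _, _, _, hB⟩ := hM
      exact hB.1
    · refine ⟨by positivity, fun z hz hz1 => (hbd z hz hz1).trans_eq ?_⟩
      rw [norm_div, Complex.norm_real, Real.norm_of_nonneg hN0.le]
      field_simp
  have hN1 : 1 ≤ N := by
    by_contra hcon
    push Not at hcon
    nlinarith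
  have h1 : 1 ≤ sq h := by rw [← hN2]; nlinarith
  have hci : ContinuousOn (fun z => (‖g₁ z‖ - ‖g₂ z‖) ^ 2) (ball (0 : ℂ) 1) :=
    ((hg1.1.continuousOn.norm).sub (hg2.1.continuousOn.norm)).pow 2
  have hexp : ∀ z ∈ ball (0 : ℂ) 1, (‖g₁ z‖ - ‖g₂ z‖) ^ 2 = ‖g₁ z‖ ^ 2 + ‖g₂ z‖ ^ 2 - 2 * ‖h z‖ ^ 2 := by
    intro z hz
    rw [hn z hz]; ring
  have hint : IntegrableOn (fun z => ‖g₁ z‖ ^ 2 + ‖g₂ z‖ ^ 2 - 2 * ‖h z‖ ^ 2) (ball (0 : ℂ) 1) :=
    (hg1.2.1.add hg2.2.1).sub (hi.const_mul 2)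
  have hint2 : IntegrableOn (fun z => (‖g₁ z‖ - ‖g₂ z‖) ^ 2) (ball (0 : ℂ) 1) :=
    hint.congr_fun (fun z hz => (hexp z hz).symm) measurableSet_ball
  have hval : ∫ z in ball (0 : ℂ) 1, (‖g₁ z‖ - ‖g₂ z‖) ^ 2 = Real.pi * (1 + 1 - 2 * sq h) := by
    have b1 : ∫ z in ball (0 : ℂ) 1, (‖g₁ z‖ ^ 2 + ‖g₂ z‖ ^ 2 - 2 * ‖h z‖ ^ 2) =
        (∫ z in ball (0 : ℂ) 1, ‖g₁ z‖ ^ 2) + (∫ z in ball (0 : ℂ) 1, ‖g₂ z‖ ^ 2) -
          2 * ∫ z in ball (0 : ℂ) 1, ‖h z‖ ^ 2 := by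
      have i1 : Integrable (fun z => ‖g₁ z‖ ^ 2) (volume.restrict (ball (0 : ℂ) 1)) := hg1.2.1
      have i2 : Integrable (fun z => ‖g₂ z‖ ^ 2) (volume.restrict (ball (0 : ℂ) 1)) := hg2.2.1
      have i3 : Integrable (fun z => ‖g₁ z‖ ^ 2 + ‖g₂ z‖ ^ 2) (volume.restrict (ball (0 : ℂ) 1)) :=
        i1.add i2
      have i4 : Integrable (fun z => 2 * ‖h z‖ ^ 2) (volume.restrict (ball (0 : ℂ) 1)) :=
        Integrable.const_mul hi 2
      rw [integral_sub i3 i4, integral_add i1 i2, integral_const_mul]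
    have key : ∀ g : ℂ → ℂ, ∫ z in ball (0 : ℂ) 1, ‖g z‖ ^ 2 = Real.pi * sq g := by
      intro g
      rw [sq]
      field_simp
    have a1 : sq g₁ = 1 := hg1.2.2
    have a2 : sq g₂ = 1 := hg2.2.2
    rw [setIntegral_congr_fun measurableSet_ball hexp, b1, key g₁, key g₂, key h, a1, a2]
    ring
  have hzero : ∫ z in ball (0 : ℂ) 1, (‖g₁ z‖ - ‖g₂ z‖) ^ 2 = 0 := by
    refine le_antisymm ?_ (integral_nonneg fun z => by positivity)
    rw [hval]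
    nlinarith
  intro z hz
  have h4 : (‖g₁ z‖ - ‖g₂ z‖) ^ 2 = 0 := zero_of_int hci (fun z => by positivity) hint2 hzero hz
  rw [pow_eq_zero_iff two_ne_zero] at h4
  linarith

end Pool.Agent.Results.MP_99f05c_an.EvenZeros
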